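import Pool.Agent.H40.Bsig5

set_option autoImplicit false

namespace Pool.Agent.Results.MP_0d2548_lc.NoChoice

open Pool.Agent.H40.Bsig Filter

theorem result : ∃ M : Mod, RCA0 M ∧ Bnd M 2 ∧ ¬ Ind M 2 ∧
    ∃ (X : Set M.N) (A : M.N → Set M.N) (Z : Set M.N),
      (∃ φ v V, Lv 2 false φ ∧ (∀ i, V i ∈ M.S) ∧ ∀ x, x ∈ X ↔ Sat M φ (cons x v) V) ∧
      Z ∈ M.S ∧ (∀ s, ∃! c, pair M s c ∈ Z) ∧ (∀ s c, pair M s c ∈ Z → IsCode M c (A s)) ∧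
      (∀ s t, s ≠ t → Disjoint (A s) (A t)) ∧ (∀ s, (A s ∩ X).Nonempty) ∧
      ∀ (f : M.N → M.N) φ v V, (∀ i, V i ∈ M.S) →
        (∀ x y, f x = y ↔ Sat M φ (cons y (cons x v)) V) → ∃ s, f s ∉ A s ∩ X := by
  refine ⟨C0.M, Cut.rca Par.sig ⟨_, XS_mem 0⟩, Cut.bnd Par.sig, notInd, X0, A0, XS 2,
    ⟨.all (.ex (.mem (pT (pT (.var 2) (.var 1)) (.var 0)) 0)), fun _ => C0.M.zero, fun _ => XS 1,
      ⟨_, ⟨_, .mem _ _, rfl⟩, rfl⟩, fun _ => XS_mem 1, fun _ => Iff.rfl⟩, XS_mem 2, fun s => ?_, coded,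
    fun s t h => Set.disjoint_left.2 fun x a b => h ((Cut.ext_iff _ _).2 ?_), meets, nochoice⟩
  · obtain ⟨c, hc⟩ := Cut.ex_rep (f := fun m => cd m (Cut.rep s m))
      ((Par.dom (p := P0) (Cut.bd_it 0) (Cut.bd_rep s)).mono (Eventually.of_forall fun _ =>
        (Nat.le_add_left _ _).trans (Nat.le_add_right _ _)))
    exact ⟨c, (mem2 s c).2 hc, fun c' h => (Cut.ext_iff _ _).2
      ((((mem2 s c').1 h).and hc).mono fun _ e => e.1.trans e.2.symm)⟩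
  · exact (Eventually.and a b).mono fun m ⟨⟨_, _, e⟩, _, _, e'⟩ => (sp_inj (e.symm.trans e')).1

end Pool.Agent.Results.MP_0d2548_lc.NoChoice
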